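import Pool.Agent.W646.KKS.RNW
import Pool.Agent.W662.KKS.Stmts3

set_option autoImplicit false
set_option linter.unusedSectionVars false

/-!
# KKS-GITER: the limit of the iteration
-/

open scoped InnerProductSpace Topology
open Pool.Agent.W662.KKS Pool.Agent.Helper278 Filter Pool.Agent.W646.KKS

namespace Pool.Agent.W690.KKS

variable {H : Type} [NormedAddCommGroup H] [InnerProductSpace ℂ H] [CompleteSpace H]

theorem mem_conj (w : (H →L[ℂ] H)ˣ) (N : VonNeumannAlgebra H) (y : H →L[ℂ] H) :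
    y ∈ conj w N ↔ (w : H →L[ℂ] H) * y * ((w⁻¹ : (H →L[ℂ] H)ˣ) : H →L[ℂ] H) ∈ N := Iff.rfl

/-! ### the limit of a decreasing sequence of projections -/

/-- the infimum of a sequence of projections -/
theorem inf_proj (p : ℕ → (H →L[ℂ] H)) (hs : ∀ k, star (p k) = p k) (hp : ∀ k, p k * p k = p k)
    (hd : ∀ k, p k * p (k + 1) = p (k + 1)) :
    ∃ P : H →L[ℂ] H, star P = P ∧ P * P = P ∧ (∀ k, p k * P = P) ∧
      (∀ T : H →L[ℂ] H, (∀ k, T * p k = p k * T) → T * P = P * T) ∧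
      ∀ (v l : H), Tendsto (fun k => p k v) atTop (𝓝 l) → P v = l := by
  have hmono : ∀ j k, j ≤ k → p j * p k = p k := by
    intro j k hjk
    induction hjk with
    | refl => exact hp j
    | step h ih =>
      rename_i m
      rw [← hd m, ← mul_assoc, ih]
  let K : Submodule ℂ H :=
    { carrier := {v | ∀ k, p k v = v}
      add_mem' := by
        intro a b ha hb k
        rw [map_add, ha k, hb k]
      zero_mem' := fun k => map_zero _
      smul_mem' := by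
        intro c a ha k
        rw [map_smul, ha k] }
  have hKmem : ∀ v, v ∈ K ↔ ∀ k, p k v = v := fun v => Iff.rfl
  have hKc : IsClosed (K : Set H) := by
    have : (K : Set H) = ⋂ k, {v | p k v = v} := by
      ext v
      simp only [Set.mem_iInter, Set.mem_ofPred_eq]
      exact hKmem v
    rw [this]
    exact isClosed_iInter fun k => isClosed_eq (p k).continuous continuous_id
  have : CompleteSpace K := hKc.completeSpace_coe
  have hPm : ∀ v, K.starProjection v ∈ K := fun v => Submodule.starProjection_apply_mem K v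
  have hPe : ∀ v ∈ K, K.starProjection v = v := fun v hv =>
    Submodule.starProjection_eq_self_iff.2 hv
  have hsa : star K.starProjection = K.starProjection := by
    rw [ContinuousLinearMap.star_eq_adjoint]
    exact (isSelfAdjoint_starProjection K).adjoint_eq
  refine ⟨K.starProjection, hsa, ?_, ?_, ?_, ?_⟩
  · ext v
    exact hPe _ (hPm v)
  · intro k
    ext v
    exact (hKmem _).1 (hPm v) k
  · intro T hT
    have key : ∀ S : H →L[ℂ] H, (∀ k, S * p k = p k * S) →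
        K.starProjection * S * K.starProjection = S * K.starProjection := by
      intro S hS
      ext v
      show K.starProjection (S (K.starProjection v)) = S (K.starProjection v)
      apply hPe
      rw [hKmem]
      intro k
      have h1 := DFunLike.congr_fun (hS k) (K.starProjection v)
      have h2 : S (p k (K.starProjection v)) = p k (S (K.starProjection v)) := h1
      rw [← h2, (hKmem _).1 (hPm v) k]
    have k1 := key T hT
    have k2 := key (star T) (fun k => by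
      have := congrArg star (hT k)
      rw [star_mul, star_mul, hs k] at this
      exact this.symm)
    have k3 := congrArg star k2
    rw [star_mul, star_mul, star_mul, star_star, hsa, ← mul_assoc] at k3
    exact k1.symm.trans k3
  · intro v l hl
    have hlK : l ∈ K := by
      rw [hKmem]
      intro j
      have h1 : Tendsto (fun k => p j (p k v)) atTop (𝓝 (p j l)) :=
        ((p j).continuous.tendsto l).comp hl
      have h2 : (fun k => p j (p k v)) =ᶠ[atTop] fun k => p k v := by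
        filter_upwards [eventually_ge_atTop j] with k hk
        exact DFunLike.congr_fun (hmono j k hk) v
      exact tendsto_nhds_unique h1 (hl.congr' h2.symm)
    have horth : ∀ u ∈ K, ⟪u, v - l⟫_ℂ = 0 := by
      intro u hu
      have h1 : Tendsto (fun k => ⟪u, v - p k v⟫_ℂ) atTop (𝓝 ⟪u, v - l⟫_ℂ) :=
        (continuous_const.inner continuous_id).continuousAt.tendsto.comp (hl.const_sub v)
      have h2 : ∀ k, ⟪u, v - p k v⟫_ℂ = 0 := by
        intro k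
        have h3 : ⟪u, p k v⟫_ℂ = ⟪u, v⟫_ℂ := by
          have h4 : ⟪p k u, v⟫_ℂ = ⟪u, p k v⟫_ℂ := by
            have := ContinuousLinearMap.adjoint_inner_left (p k) v u
            rw [← ContinuousLinearMap.star_eq_adjoint, hs k] at this
            exact this
          rw [← h4, (hKmem u).1 hu k]
        rw [inner_sub_right, h3, sub_self]
      simp only [h2] at h1
      exact (tendsto_nhds_unique h1 tendsto_const_nhds)
    exact Submodule.eq_starProjection_of_mem_of_inner_eq_zero hlK (fun u hu => by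
      have := horth u hu
      rw [← inner_conj_symm, this, map_zero])

/-! ### updating the similarity -/

theorem upd (w : (H →L[ℂ] H)ˣ) (S : H →L[ℂ] H) (s e : ℝ) (hw : ‖(w : H →L[ℂ] H) - 1‖ ≤ e)
    (he : e ≤ 1 / 10) (hS : ‖S‖ ≤ s) (hs : s ≤ 1 / 10) :
    ∃ w' : (H →L[ℂ] H)ˣ, (w' : H →L[ℂ] H) * (1 - S) = w ∧ ‖(w' : H →L[ℂ] H) - w‖ ≤ 2 * s ∧
      ∀ T : H →L[ℂ] H, (w : H →L[ℂ] H) * T = T * w → S * T = T * S →
        (w' : H →L[ℂ] H) * T = T * w' := by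
  have hS10 : ‖S‖ ≤ 1 / 10 := hS.trans hs
  have hs0 : 0 ≤ s := (norm_nonneg S).trans hS
  set u : (H →L[ℂ] H)ˣ := Units.oneSub S (by linarith) with hu
  have huv : (u : H →L[ℂ] H) = 1 - S := rfl
  set U : H →L[ℂ] H := ((u⁻¹ : (H →L[ℂ] H)ˣ) : H →L[ℂ] H) with hU
  have huU : (1 - S) * U = 1 := Units.mul_inv u
  have hUu : U * (1 - S) = 1 := Units.inv_mul u
  have hUn : ‖U‖ ≤ 10 / 9 := by
    have := norm_winv_le u (1 / 10) (by rw [huv]; simpa using hS10) (by norm_num)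
    norm_num at this
    exact this
  have hU1 : U - 1 = U * S := by
    have : U * (1 - S) = U - U * S := by rw [mul_sub, mul_one]
    rw [this] at hUu
    rw [← hUu]
    abel
  have hwn : ‖(w : H →L[ℂ] H)‖ ≤ 11 / 10 := by
    have := norm_w_le w _ hw
    linarith
  refine ⟨w * u⁻¹, ?_, ?_, ?_⟩
  · rw [Units.val_mul, ← hU, mul_assoc, hUu, mul_one]
  · have e1 : ((w * u⁻¹ : (H →L[ℂ] H)ˣ) : H →L[ℂ] H) - w = (w : H →L[ℂ] H) * (U * S) := by
      rw [Units.val_mul, ← hU, ← hU1]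
      noncomm_ring
    rw [e1]
    have h1 : ‖U * S‖ ≤ 10 / 9 * s :=
      (norm_mul_le U S).trans (mul_le_mul hUn hS (norm_nonneg _) (by norm_num))
    have h2 := (norm_mul_le (w : H →L[ℂ] H) (U * S)).trans
      (mul_le_mul hwn h1 (norm_nonneg _) (by norm_num))
    linarith
  · intro T h1 h2
    have h3 : (1 - S) * T = T * (1 - S) := by
      rw [sub_mul, mul_sub, one_mul, mul_one, h2]
    have h4 : U * T = T * U := by
      calc U * T = U * T * ((1 - S) * U) := by rw [huU, mul_one]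
        _ = U * (T * (1 - S)) * U := by simp only [mul_assoc]
        _ = U * ((1 - S) * T) * U := by rw [h3]
        _ = (U * (1 - S)) * T * U := by simp only [mul_assoc]
        _ = T * U := by rw [hUu, one_mul]
    rw [Units.val_mul, ← hU, mul_assoc, h4, ← mul_assoc, h1, mul_assoc]

/-! ### the iteration -/

/-- the invariants of the iteration -/
structure Inv (M N : VonNeumannAlgebra H) (ξ : H) (ρ : (H →L[ℂ] H) → (H →L[ℂ] H))
    (A : StarSubalgebra ℂ (H →L[ℂ] H)) (e a δ : ℝ) (z : (H →L[ℂ] H)ˣ × (H →L[ℂ] H)) : Prop where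
  near : ‖(z.1 : H →L[ℂ] H) - 1‖ ≤ e
  cA : ∀ b ∈ A, (z.1 : H →L[ℂ] H) * b = b * z.1
  cR : ∀ b ∈ A, (z.1 : H →L[ℂ] H) * ρ b = ρ b * z.1
  pA : z.2 ∈ A
  ps : star z.2 = z.2
  pp : z.2 * z.2 = z.2
  pn : ‖(1 - z.2) ξ‖ ≤ a
  rd : RD M N ξ ρ z.2 z.1 δ

/-- the limit of the iteration -/
theorem lim_step (M N : VonNeumannAlgebra H) (ξ : H) (ρ : (H →L[ℂ] H) → (H →L[ℂ] H))
    (A : StarSubalgebra ℂ (H →L[ℂ] H)) (hstd : Std M ξ ρ) (hA : IsMasa M A)
    (η δ0 : ℝ) (hη0 : 0 ≤ η) (hη : η ≤ 1 / 10)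
    (z : ℕ → (H →L[ℂ] H)ˣ × (H →L[ℂ] H))
    (hz : ∀ k : ℕ, Inv M N ξ ρ A (η * (1 - 1 / 2 ^ k)) (1 / 5 * (1 - 1 / 2 ^ k)) (δ0 / 4 ^ k) (z k))
    (h1 : ∀ k : ℕ, ‖((z (k + 1)).1 : H →L[ℂ] H) - (z k).1‖ ≤ η / 2 ^ (k + 1))
    (h2 : ∀ k : ℕ, (z k).2 * (z (k + 1)).2 = (z (k + 1)).2)
    (h3 : ∀ k : ℕ, ‖((z k).2 - (z (k + 1)).2) ξ‖ ≤ 1 / (10 * 2 ^ k)) :
    ∃ (w : (H →L[ℂ] H)ˣ) (p : H →L[ℂ] H), ‖(w : H →L[ℂ] H) - 1‖ ≤ η ∧
    (∀ a ∈ A, (w : H →L[ℂ] H) * a = a * w) ∧ (∀ a ∈ A, (w : H →L[ℂ] H) * ρ a = ρ a * w) ∧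
    p ∈ A ∧ star p = p ∧ p * p = p ∧ ‖(1 - p) ξ‖ ^ 2 ≤ 1 / 4 ∧ RD M N ξ ρ p w 0 := by
  have hpos : ∀ k : ℕ, (0 : ℝ) < 1 / 2 ^ k := fun k => by positivity
  have hek : ∀ k : ℕ, η * (1 - 1 / 2 ^ k) ≤ η := by
    intro k
    have := hpos k
    nlinarith
  -- the limit of the similarities
  set W : ℕ → (H →L[ℂ] H) := fun k => ((z k).1 : H →L[ℂ] H) with hW
  have hWd : ∀ k, dist (W k) (W (k + 1)) ≤ η / 2 / 2 ^ k := by
    intro k
    rw [dist_comm, dist_eq_norm]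
    refine (h1 k).trans (le_of_eq ?_)
    rw [pow_succ]
    field_simp
  have hcau : CauchySeq W := cauchySeq_of_le_geometric_two hWd
  obtain ⟨wl, hwl⟩ := cauchySeq_tendsto_of_complete hcau
  have hwln : ‖wl - 1‖ ≤ η := by
    have h3 : Tendsto (fun k => ‖W k - 1‖) atTop (𝓝 ‖wl - 1‖) := (hwl.sub_const 1).norm
    exact le_of_tendsto h3 (Eventually.of_forall fun k => ((hz k).near).trans (hek k))
  have hlt : ‖(1 : H →L[ℂ] H) - wl‖ < 1 := by
    rw [norm_sub_rev]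
    linarith
  set w : (H →L[ℂ] H)ˣ := Units.oneSub (1 - wl) hlt with hw
  have hwv : (w : H →L[ℂ] H) = wl := by
    show 1 - (1 - wl) = wl
    abel
  have hwl' : Tendsto W atTop (𝓝 (w : H →L[ℂ] H)) := by rw [hwv]; exact hwl
  have hcom : ∀ T : H →L[ℂ] H, (∀ k, W k * T = T * W k) → (w : H →L[ℂ] H) * T = T * w := by
    intro T hT
    have l1 := hwl'.mul_const T
    have l2 := hwl'.const_mul T
    exact tendsto_nhds_unique l1 (l2.congr fun k => (hT k).symm)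
  -- the limit of the projections
  obtain ⟨P, Ps, PP, Pk, Pc, Pl⟩ := inf_proj (fun k => (z k).2) (fun k => (hz k).ps)
    (fun k => (hz k).pp) h2
  have Pk' : ∀ k, P * (z k).2 = P := by
    intro k
    have := congrArg star (Pk k)
    simp only [star_mul, (hz k).ps, Ps] at this
    exact this
  have hPM : P ∈ M := by
    rw [← VonNeumannAlgebra.commutant_commutant M, VonNeumannAlgebra.mem_commutant_iff]
    intro r hr
    apply Pc
    intro k
    exact ((VonNeumannAlgebra.mem_commutant_iff (S := M)).1 hr _ (hA.le _ (hz k).pA)).symm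
  have hPA : P ∈ A := by
    apply hA.max P hPM
    intro y hy
    refine (Pc y fun k => ?_).symm
    exact hA.comm y hy _ (hz k).pA
  have hPn : ‖(1 - P) ξ‖ ≤ 1 / 5 := by
    have hd : ∀ k, dist ((z k).2 ξ) ((z (k + 1)).2 ξ) ≤ 1 / 5 / 2 / 2 ^ k := by
      intro k
      rw [dist_eq_norm]
      have := h3 k
      rw [sub_apply] at this
      refine this.trans (le_of_eq ?_)
      field_simp
      norm_num
    obtain ⟨l, hl⟩ := cauchySeq_tendsto_of_complete (cauchySeq_of_le_geometric_two hd)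
    have hPl := Pl ξ l hl
    have h4 : Tendsto (fun k => ‖(1 - (z k).2) ξ‖) atTop (𝓝 ‖(1 - P) ξ‖) := by
      rw [sub_apply, hPl]
      exact (hl.const_sub ((1 : H →L[ℂ] H) ξ)).norm
    refine le_of_tendsto h4 (Eventually.of_forall fun k => (hz k).pn.trans ?_)
    have := hpos k
    linarith
  have cAw : ∀ a ∈ A, (w : H →L[ℂ] H) * a = a * w := fun a ha => hcom a fun k => (hz k).cA a ha
  have cRw : ∀ a ∈ A, (w : H →L[ℂ] H) * ρ a = ρ a * w :=
    fun a ha => hcom (ρ a) fun k => (hz k).cR a ha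
  refine ⟨w, P, by rw [hwv]; exact hwln, cAw, cRw, hPA, Ps, PP, ?_, ?_⟩
  · have := norm_nonneg ((1 - P) ξ)
    nlinarith
  · intro x hx q hq hpx hpq
    rw [mem_conj] at hq
    set n : H →L[ℂ] H := (w : H →L[ℂ] H) * q * ((w⁻¹ : (H →L[ℂ] H)ˣ) : H →L[ℂ] H) with hn
    set qk : ℕ → (H →L[ℂ] H) := fun k =>
      (((z k).1⁻¹ : (H →L[ℂ] H)ˣ) : H →L[ℂ] H) * n * W k with hqk
    have hqkm : ∀ k, qk k ∈ conj (z k).1 N.commutant := by
      intro k
      rw [mem_conj]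
      have e1 : ((z k).1 : H →L[ℂ] H) * qk k * (((z k).1⁻¹ : (H →L[ℂ] H)ˣ) : H →L[ℂ] H) = n := by
        simp only [hqk, hW]
        calc ((z k).1 : H →L[ℂ] H) * ((((z k).1⁻¹ : (H →L[ℂ] H)ˣ) : H →L[ℂ] H) * n *
            ((z k).1 : H →L[ℂ] H)) * (((z k).1⁻¹ : (H →L[ℂ] H)ˣ) : H →L[ℂ] H) =
            (((z k).1 : H →L[ℂ] H) * (((z k).1⁻¹ : (H →L[ℂ] H)ˣ) : H →L[ℂ] H)) * n *
            (((z k).1 : H →L[ℂ] H) * (((z k).1⁻¹ : (H →L[ℂ] H)ˣ) : H →L[ℂ] H)) := by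
              simp only [mul_assoc]
          _ = n := by rw [Units.mul_inv, one_mul, mul_one]
      rw [e1]
      exact hq
    have hinv : Tendsto (fun k => (((z k).1⁻¹ : (H →L[ℂ] H)ˣ) : H →L[ℂ] H)) atTop
        (𝓝 ((w⁻¹ : (H →L[ℂ] H)ˣ) : H →L[ℂ] H)) := by
      have h3 : ContinuousAt Ring.inverse (w : H →L[ℂ] H) := NormedRing.inverse_continuousAt w
      have h5 := h3.tendsto.comp hwl'
      have e1 : (Ring.inverse ∘ W) = fun k => (((z k).1⁻¹ : (H →L[ℂ] H)ˣ) : H →L[ℂ] H) := by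
        funext k
        exact Ring.inverse_unit _
      rw [e1, Ring.inverse_unit] at h5
      exact h5
    have hqlim : Tendsto qk atTop (𝓝 q) := by
      have h5 := (hinv.mul_const n).mul hwl'
      have e1 : ((w⁻¹ : (H →L[ℂ] H)ˣ) : H →L[ℂ] H) * n * (w : H →L[ℂ] H) = q := by
        rw [hn]
        calc ((w⁻¹ : (H →L[ℂ] H)ˣ) : H →L[ℂ] H) * ((w : H →L[ℂ] H) * q *
            ((w⁻¹ : (H →L[ℂ] H)ˣ) : H →L[ℂ] H)) * (w : H →L[ℂ] H) =
            (((w⁻¹ : (H →L[ℂ] H)ˣ) : H →L[ℂ] H) * (w : H →L[ℂ] H)) * q *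
            (((w⁻¹ : (H →L[ℂ] H)ˣ) : H →L[ℂ] H) * (w : H →L[ℂ] H)) := by
              simp only [mul_assoc]
          _ = q := by rw [Units.inv_mul, one_mul, mul_one]
      rw [e1] at h5
      exact h5
    -- compression
    have hcr : ∀ k, (z k).2 * x * (z k).2 = x := by
      intro k
      rw [← hpx]
      calc (z k).2 * (P * x * P) * (z k).2 = ((z k).2 * P) * x * (P * (z k).2) := by
            simp only [mul_assoc]
        _ = P * x * P := by rw [Pk k, Pk' k]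
    have hPM' : ∀ k, (z k).2 ∈ M := fun k => hA.le _ (hz k).pA
    have r1 : ∀ k, ρ P * ρ (z k).2 = ρ P := by
      intro k
      rw [← hstd.mul _ (hPM' k) _ hPM, Pk k]
    have r2 : ∀ k, ρ (z k).2 * ρ P = ρ P := by
      intro k
      rw [← hstd.mul _ hPM _ (hPM' k), Pk' k]
    have hnP : ρ P * n * ρ P = n := by
      have c1 : (w : H →L[ℂ] H) * ρ P = ρ P * w := cRw P hPA
      have c2 : ((w⁻¹ : (H →L[ℂ] H)ˣ) : H →L[ℂ] H) * ρ P =
          ρ P * ((w⁻¹ : (H →L[ℂ] H)ˣ) : H →L[ℂ] H) := by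
        calc ((w⁻¹ : (H →L[ℂ] H)ˣ) : H →L[ℂ] H) * ρ P =
            ((w⁻¹ : (H →L[ℂ] H)ˣ) : H →L[ℂ] H) * (ρ P * w) *
              ((w⁻¹ : (H →L[ℂ] H)ˣ) : H →L[ℂ] H) := by
              rw [mul_assoc, mul_assoc, Units.mul_inv, mul_one]
          _ = ((w⁻¹ : (H →L[ℂ] H)ˣ) : H →L[ℂ] H) * (w * ρ P) *
              ((w⁻¹ : (H →L[ℂ] H)ˣ) : H →L[ℂ] H) := by rw [c1]
          _ = _ := by rw [← mul_assoc, Units.inv_mul, one_mul]
      calc ρ P * n * ρ P = (ρ P * w) * q * (((w⁻¹ : (H →L[ℂ] H)ˣ) : H →L[ℂ] H) * ρ P) := by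
            rw [hn]; simp only [mul_assoc]
        _ = (w * ρ P) * q * (ρ P * ((w⁻¹ : (H →L[ℂ] H)ˣ) : H →L[ℂ] H)) := by rw [c1, c2]
        _ = w * (ρ P * q * ρ P) * ((w⁻¹ : (H →L[ℂ] H)ˣ) : H →L[ℂ] H) := by
            simp only [mul_assoc]
        _ = n := by rw [hpq]
    have hnk : ∀ k, ρ (z k).2 * n * ρ (z k).2 = n := by
      intro k
      rw [← hnP]
      calc ρ (z k).2 * (ρ P * n * ρ P) * ρ (z k).2 =
          (ρ (z k).2 * ρ P) * n * (ρ P * ρ (z k).2) := by simp only [mul_assoc]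
        _ = ρ P * n * ρ P := by rw [r1, r2]
    have hcq : ∀ k, ρ (z k).2 * qk k * ρ (z k).2 = qk k := by
      intro k
      have c1 : ((z k).1 : H →L[ℂ] H) * ρ (z k).2 = ρ (z k).2 * (z k).1 := (hz k).cR _ (hz k).pA
      have c2 : (((z k).1⁻¹ : (H →L[ℂ] H)ˣ) : H →L[ℂ] H) * ρ (z k).2 =
          ρ (z k).2 * (((z k).1⁻¹ : (H →L[ℂ] H)ˣ) : H →L[ℂ] H) := by
        calc (((z k).1⁻¹ : (H →L[ℂ] H)ˣ) : H →L[ℂ] H) * ρ (z k).2 =
            (((z k).1⁻¹ : (H →L[ℂ] H)ˣ) : H →L[ℂ] H) * (ρ (z k).2 * (z k).1) *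
              (((z k).1⁻¹ : (H →L[ℂ] H)ˣ) : H →L[ℂ] H) := by
              rw [mul_assoc, mul_assoc, Units.mul_inv, mul_one]
          _ = (((z k).1⁻¹ : (H →L[ℂ] H)ˣ) : H →L[ℂ] H) * ((z k).1 * ρ (z k).2) *
              (((z k).1⁻¹ : (H →L[ℂ] H)ˣ) : H →L[ℂ] H) := by rw [c1]
          _ = _ := by rw [← mul_assoc, Units.inv_mul, one_mul]
      calc ρ (z k).2 * qk k * ρ (z k).2 =
          (ρ (z k).2 * (((z k).1⁻¹ : (H →L[ℂ] H)ˣ) : H →L[ℂ] H)) * n *
            (((z k).1 : H →L[ℂ] H) * ρ (z k).2) := by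
            simp only [hqk, hW, mul_assoc]
        _ = ((((z k).1⁻¹ : (H →L[ℂ] H)ˣ) : H →L[ℂ] H) * ρ (z k).2) * n *
            (ρ (z k).2 * ((z k).1 : H →L[ℂ] H)) := by rw [c1, ← c2]
        _ = (((z k).1⁻¹ : (H →L[ℂ] H)ˣ) : H →L[ℂ] H) * (ρ (z k).2 * n * ρ (z k).2) *
            ((z k).1 : H →L[ℂ] H) := by simp only [mul_assoc]
        _ = qk k := by rw [hnk k]
    have hL : Tendsto (fun k => ‖(x * qk k - qk k * x) ξ‖) atTop (𝓝 ‖(x * q - q * x) ξ‖) := by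
      have h3 : Tendsto (fun k => x * qk k - qk k * x) atTop (𝓝 (x * q - q * x)) :=
        (hqlim.const_mul x).sub (hqlim.mul_const x)
      have h4 : Continuous fun T : H →L[ℂ] H => T ξ := continuous_eval_const ξ
      exact ((h4.tendsto _).comp h3).norm
    have hR : Tendsto (fun k : ℕ => δ0 / 4 ^ k * ‖x‖ * ‖qk k‖) atTop (𝓝 (0 * ‖x‖ * ‖q‖)) := by
      have h3 : Tendsto (fun k : ℕ => δ0 / 4 ^ k) atTop (𝓝 0) := by
        have h4 : Tendsto (fun k : ℕ => δ0 * (1 / 4 : ℝ) ^ k) atTop (𝓝 (δ0 * 0)) :=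
          (tendsto_pow_atTop_nhds_zero_of_lt_one (by norm_num) (by norm_num)).const_mul δ0
        rw [mul_zero] at h4
        refine h4.congr fun k => ?_
        rw [one_div_pow]
        ring
      exact (h3.mul_const ‖x‖).mul hqlim.norm
    exact le_of_tendsto_of_tendsto' hL hR fun k => (hz k).rd x hx (qk k) (hqkm k) (hcr k) (hcq k)

theorem giter (h : S_GSTEP) : S_GITER := by
  obtain ⟨K1, hK1, hstep⟩ := h
  have hK10 : 0 < K1 := by linarith
  have hKq : 1 ≤ K1 ^ 2 := one_le_pow₀ hK1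
  have hKq' : K1 ≤ K1 ^ 2 := by nlinarith
  refine ⟨10 ^ 5 * K1 ^ 2, by nlinarith, ?_⟩
  intro H _ _ _ M N ξ ρ A γ hI hγ hγK
  have hγb : 10 ^ 5 * (K1 ^ 2 * γ) ≤ 1 := by
    rw [le_div_iff₀ (by positivity)] at hγK
    linarith
  have hKγ : K1 * γ ≤ K1 ^ 2 * γ := mul_le_mul_of_nonneg_right hKq' hγ.le
  have hγ1 : γ ≤ K1 * γ := by nlinarith
  set η := 1000 * (K1 * γ) with hη
  have hη0 : 0 ≤ η := by positivity
  have hη10 : η ≤ 1 / 100 := by linarith
  have hγη : K1 * (γ + η) ≤ 1 / 8 := by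
    have : K1 * (γ + η) = K1 * γ + 1000 * (K1 ^ 2 * γ) := by rw [hη]; ring
    rw [this]
    linarith
  have hγη' : γ + η ≤ 1 / K1 := by
    rw [le_div_iff₀ hK10]
    linarith
  set δ0 := 2 * γ with hδ0
  have hp2 : ∀ k : ℕ, (1 : ℝ) ≤ 2 ^ k := fun k => one_le_pow₀ (by norm_num)
  have h42 : ∀ k : ℕ, (4 : ℝ) ^ k = 2 ^ k * 2 ^ k := by
    intro k
    rw [← mul_pow]
    norm_num
  have hstart : Inv M N ξ ρ A (η * (1 - 1 / 2 ^ 0)) (1 / 5 * (1 - 1 / 2 ^ 0)) (δ0 / 4 ^ 0)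
      (1, 1) := by
    refine ⟨by simp, fun b _ => by simp, fun b _ => by simp, A.one_mem, star_one _, one_mul _,
      by simp, ?_⟩
    intro x hx q hq _ _
    rw [mem_conj] at hq
    have hq' : q ∈ N.commutant := by simpa using hq
    obtain ⟨r, hr, hqr⟩ := hI.n4 q hq'
    have hr' : x * r = r * x := (VonNeumannAlgebra.mem_commutant_iff (S := M)).1 hr x hx
    have e1 : x * q - q * x = x * (q - r) - (q - r) * x := by
      rw [mul_sub, sub_mul, hr']
      abel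
    rw [e1]
    refine (ContinuousLinearMap.le_opNorm _ _).trans ?_
    rw [hI.std.unit, mul_one]
    refine (norm_sub_le _ _).trans ?_
    have h3 := (norm_mul_le x (q - r)).trans (mul_le_mul_of_nonneg_left hqr (norm_nonneg x))
    have h4 := (norm_mul_le (q - r) x).trans (mul_le_mul_of_nonneg_right hqr (norm_nonneg x))
    have e2 : δ0 / 4 ^ 0 * ‖x‖ * ‖q‖ = ‖x‖ * (γ * ‖q‖) + γ * ‖q‖ * ‖x‖ := by
      rw [hδ0]
      ring
    rw [e2]
    exact add_le_add h3 h4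
  have hnext : ∀ k : ℕ, ∀ z : (H →L[ℂ] H)ˣ × (H →L[ℂ] H),
      Inv M N ξ ρ A (η * (1 - 1 / 2 ^ k)) (1 / 5 * (1 - 1 / 2 ^ k)) (δ0 / 4 ^ k) z →
      ∃ z' : (H →L[ℂ] H)ˣ × (H →L[ℂ] H),
        Inv M N ξ ρ A (η * (1 - 1 / 2 ^ (k + 1))) (1 / 5 * (1 - 1 / 2 ^ (k + 1)))
          (δ0 / 4 ^ (k + 1)) z' ∧
        ‖(z'.1 : H →L[ℂ] H) - z.1‖ ≤ η / 2 ^ (k + 1) ∧ z.2 * z'.2 = z'.2 ∧
        ‖(z.2 - z'.2) ξ‖ ≤ 1 / (10 * 2 ^ k) := by
    intro k z hz
    have h2k := hp2 k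
    have h2k0 : (0 : ℝ) < 2 ^ k := by positivity
    have hpos : (0 : ℝ) < 1 / 2 ^ k := by positivity
    have hle1 : (1 : ℝ) / 2 ^ k ≤ 1 := by
      rw [div_le_one h2k0]
      exact h2k
    set κ : ℝ := 40 * 2 ^ k with hκ
    set δ : ℝ := δ0 / 4 ^ k with hδ
    have hδ0' : 0 ≤ δ := by rw [hδ, hδ0]; positivity
    have hκδ : κ * δ = 80 * γ * (1 / 2 ^ k) := by
      rw [hκ, hδ, hδ0, h42]
      field_simp
      ring
    have hKκδ : K1 * (κ * δ) = 80 * (K1 * γ) * (1 / 2 ^ k) := by rw [hκδ]; ring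
    have hKκδ1 : K1 * (κ * δ) ≤ 80 * (K1 * γ) := by
      rw [hKκδ]
      have : 0 ≤ 80 * (K1 * γ) := by positivity
      nlinarith
    have hκδ' : κ * δ ≤ 1 / K1 := by
      rw [le_div_iff₀ hK10]
      linarith
    have hnear : ‖(z.1 : H →L[ℂ] H) - 1‖ ≤ η := by
      refine hz.near.trans ?_
      nlinarith
    have hpn : ‖(1 - z.2) ξ‖ ≤ 1 / 5 := by
      refine hz.pn.trans ?_
      linarith
    have hpn2 : ‖(1 - z.2) ξ‖ ^ 2 ≤ 1 / 2 := by
      have := norm_nonneg ((1 - z.2) ξ)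
      nlinarith
    obtain ⟨p', S, hp'A, hp's, hp'p, hpp', hpd, hSn, hSA, hSR, hrd⟩ :=
      hstep H M N ξ ρ A γ z.1 z.2 η δ κ hI hγ hη0 hγη' hnear hz.cA hz.cR hz.pA hz.ps hz.pp
        hpn2 hδ0' hz.rd (by rw [hκ]; linarith) hκδ'
    have hSn' : ‖S‖ ≤ 80 * (K1 * γ) * (1 / 2 ^ k) := by
      refine hSn.trans (le_of_eq ?_)
      rw [← hKκδ]
      ring
    have hs10 : 80 * (K1 * γ) * (1 / 2 ^ k) ≤ 1 / 10 := by
      rw [← hKκδ]
      linarith
    obtain ⟨w', hw1, hw2, hw3⟩ := upd z.1 S _ η hnear (by linarith) hSn' hs10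
    have hpd' : ‖(z.2 - p') ξ‖ ≤ 1 / (10 * 2 ^ k) := by
      have e1 : (16 : ℝ) / κ ^ 2 = (1 / (10 * 2 ^ k)) ^ 2 := by
        rw [hκ]
        field_simp
        norm_num
      rw [e1] at hpd
      exact (pow_le_pow_iff_left₀ (norm_nonneg _) (by positivity) (by norm_num)).1 hpd
    have hwd : ‖(w' : H →L[ℂ] H) - z.1‖ ≤ η / 2 ^ (k + 1) := by
      refine hw2.trans ?_
      have e1 : η / 2 ^ (k + 1) = 500 * (K1 * γ) * (1 / 2 ^ k) := by
        rw [hη, pow_succ]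
        field_simp
        norm_num
      rw [e1]
      have : 0 ≤ (K1 * γ) * (1 / 2 ^ k) := by positivity
      nlinarith
    refine ⟨(w', p'), ⟨?_, ?_, ?_, hp'A, hp's, hp'p, ?_, ?_⟩, hwd, hpp', hpd'⟩
    · have e1 : (w' : H →L[ℂ] H) - 1 = ((w' : H →L[ℂ] H) - z.1) + ((z.1 : H →L[ℂ] H) - 1) := by
        abel
      show ‖(w' : H →L[ℂ] H) - 1‖ ≤ _
      rw [e1]
      refine (norm_add_le _ _).trans ((add_le_add hwd hz.near).trans (le_of_eq ?_))
      rw [pow_succ]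
      field_simp
      ring
    · intro b hb
      exact hw3 b (hz.cA b hb) (hSA b hb)
    · intro b hb
      exact hw3 (ρ b) (hz.cR b hb) (hSR b hb)
    · show ‖(1 - p') ξ‖ ≤ _
      have e1 : (1 - p') ξ = (1 - z.2) ξ + (z.2 - p') ξ := by
        rw [← add_apply]
        congr 1
        abel
      rw [e1]
      refine (norm_add_le _ _).trans ((add_le_add hz.pn hpd').trans (le_of_eq ?_))
      rw [pow_succ]
      field_simp
      ring
    · have hr := hrd w' hw1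
      intro x hx q hq h1 h2
      refine (hr x hx q hq h1 h2).trans ?_
      have e1 : K1 * ((γ + η) * δ + κ * δ ^ 2) = (K1 * (γ + η) + K1 * (κ * δ)) * δ := by ring
      have e2 : K1 * ((γ + η) * δ + κ * δ ^ 2) ≤ δ0 / 4 ^ (k + 1) := by
        rw [e1]
        have e3 : δ0 / 4 ^ (k + 1) = 1 / 4 * δ := by
          rw [hδ, pow_succ]
          field_simp
        rw [e3]
        apply mul_le_mul_of_nonneg_right _ hδ0'
        linarith
      gcongr
  choose nx hnx1 hnx2 using hnext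
  let f : (k : ℕ) → {z : (H →L[ℂ] H)ˣ × (H →L[ℂ] H) //
      Inv M N ξ ρ A (η * (1 - 1 / 2 ^ k)) (1 / 5 * (1 - 1 / 2 ^ k)) (δ0 / 4 ^ k) z} := fun k =>
    Nat.rec ⟨(1, 1), hstart⟩ (fun k p => ⟨nx k p.1 p.2, hnx1 k p.1 p.2⟩) k
  obtain ⟨w, p, h1, h2⟩ := lim_step M N ξ ρ A hI.std hI.masa η δ0 hη0 (by linarith)
    (fun k => (f k).1) (fun k => (f k).2) (fun k => (hnx2 k (f k).1 (f k).2).1)
    (fun k => (hnx2 k (f k).1 (f k).2).2.1) (fun k => (hnx2 k (f k).1 (f k).2).2.2)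
  refine ⟨w, p, h1.trans ?_, h2⟩
  rw [hη]
  have : 0 ≤ K1 ^ 2 * γ := by positivity
  nlinarith

end Pool.Agent.W690.KKS
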