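import Mathlib
import Pool.Agent.W662.KKS.Stmts3
import Pool.Agent.W475.KKS.Avg

set_option autoImplicit false
set_option linter.unusedSectionVars false

/-!
# KKS-UAVG: averaging over a commutative group of unitaries
-/

open scoped InnerProductSpace Topology
open Filter
open Pool.Agent.Helper278

namespace Pool.Agent.W690.KKS

open Pool.Agent.W662.KKS Pool.Agent.W475.KKS

section basics

variable {H : Type} [NormedAddCommGroup H] [InnerProductSpace ℂ H] [CompleteSpace H]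

variable {M : VonNeumannAlgebra H} {ξ : H} {ρ : (H →L[ℂ] H) → (H →L[ℂ] H)}
  {U : Set (H →L[ℂ] H)} {c : (H →L[ℂ] H) → (H →L[ℂ] H) → H}

/-- conjugation by the commutant -/
theorem goodU_right (hS : Std M ξ ρ) (hG : UG M U) {ε e : ℝ} (hε : 0 ≤ ε)
    (hCM : CMU M ρ U c ε) (hc1 : ∀ x ∈ M, c x 1 = 0) {S : H →L[ℂ] H} (he : 0 ≤ e)
    (h : Good M ξ ρ c e S) {v : H →L[ℂ] H} (hv : v ∈ U) :
    Good M ξ ρ c (2 * e + 2 * ε) (star (ρ v) * S * ρ v) := by
  intro x hx a ha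
  have hvM := hG.mem v hv
  have hsu := hG.su v hv
  have hus := hG.us v hv
  have r1 := rho_uni hS hvM hus
  have r2 := rho_uni' hS hvM hsu
  have hvn : ‖v‖ ≤ 1 := norm_uni_le hsu
  have hav : a * v ∈ M := mul_mem ha hvM
  have hstar : star (star (ρ v)) * star (ρ v) = 1 := by rw [star_star, r2]
  have hcs : star (ρ v) * x = x * star (ρ v) := by
    rw [← hS.stm v hvM]; exact hS.comm _ (star_mem hvM) x hx
  have key : dc ξ ρ (star (ρ v) * S * ρ v) x a =
      star (ρ v) (dc ξ ρ S x (a * v)) - ρ a (star (ρ v) (dc ξ ρ S x v)) := by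
    have e1 : ρ v (x (a ξ)) = x ((a * v) ξ) := by
      have := rho_apply hS hvM (mul_mem hx ha)
      exact this
    have e2 : ρ v (a ξ) = (a * v) ξ := rho_apply hS hvM ha
    have e3 : ρ v (x ξ) = x (v ξ) := rho_apply hS hvM hx
    have e4 : ρ v ξ = v ξ := hS.vec v hvM
    have e5 : ∀ w, star (ρ v) (x w) = x (star (ρ v) w) := fun w => congrArg (fun T => T w) hcs
    have e6 : ∀ w, ρ (a * v) w = ρ v (ρ a w) := fun w => by rw [hS.mul a ha v hvM]; rfl
    have e7 : ∀ w, star (ρ v) (ρ v w) = w := fun w => by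
      have := congrArg (fun T : H →L[ℂ] H => T w) r1
      exact this
    rw [dc_expand, dc_expand, dc_expand]
    show star (ρ v) (S (ρ v (x (a ξ)))) - x (star (ρ v) (S (ρ v (a ξ)))) -
        ρ a (star (ρ v) (S (ρ v (x ξ)))) + ρ a (x (star (ρ v) (S (ρ v ξ)))) = _
    rw [e1, e2, e3, e4]
    simp only [map_sub, map_add, e5, e6, e7]
    abel
  have b1 : ‖dc ξ ρ S x (a * v) + ρ v (c x a)‖ ≤ (e + ε) * ‖x‖ * ‖a‖ := by
    have h1 := h x hx (a * v) hav
    have h2 := hCM.right v hv x hx a ha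
    have h3 : ‖a * v‖ ≤ ‖a‖ := (norm_mul_le _ _).trans (by
      calc ‖a‖ * ‖v‖ ≤ ‖a‖ * 1 := mul_le_mul_of_nonneg_left hvn (norm_nonneg _)
        _ = ‖a‖ := mul_one _)
    have h4 : dc ξ ρ S x (a * v) + ρ v (c x a) =
        (c x (a * v) + dc ξ ρ S x (a * v)) - (c x (a * v) - ρ v (c x a)) := by abel
    rw [h4]
    refine (norm_sub_le _ _).trans ?_
    have h5 : e * ‖x‖ * ‖a * v‖ ≤ e * ‖x‖ * ‖a‖ :=
      mul_le_mul_of_nonneg_left h3 (mul_nonneg he (norm_nonneg _))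
    linarith
  have b2 : ‖dc ξ ρ S x v‖ ≤ (e + ε) * ‖x‖ := by
    have h1 := h x hx v hvM
    have h2 := hCM.right v hv x hx 1 (one_mem _)
    rw [one_mul, hc1 x hx, map_zero, sub_zero] at h2
    have h4 : dc ξ ρ S x v = (c x v + dc ξ ρ S x v) - c x v := by abel
    rw [h4]
    refine (norm_sub_le _ _).trans ?_
    have h5 : e * ‖x‖ * ‖v‖ ≤ e * ‖x‖ * 1 :=
      mul_le_mul_of_nonneg_left hvn (mul_nonneg he (norm_nonneg _))
    have h6 : ε * ‖x‖ * ‖(1 : H →L[ℂ] H)‖ ≤ ε * ‖x‖ * 1 :=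
      mul_le_mul_of_nonneg_left norm_one_le' (mul_nonneg hε (norm_nonneg _))
    linarith
  have e8 : star (ρ v) (ρ v (c x a)) = c x a := congrArg (fun T : H →L[ℂ] H => T (c x a)) r1
  have h4 : c x a + dc ξ ρ (star (ρ v) * S * ρ v) x a =
      star (ρ v) (dc ξ ρ S x (a * v) + ρ v (c x a)) - ρ a (star (ρ v) (dc ξ ρ S x v)) := by
    rw [key, map_add, e8]; abel
  rw [h4]
  refine (norm_sub_le _ _).trans ?_
  rw [norm_uni_apply hstar]
  have h5 : ‖ρ a (star (ρ v) (dc ξ ρ S x v))‖ ≤ ‖a‖ * ((e + ε) * ‖x‖) := by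
    refine ((ρ a).le_opNorm _).trans ?_
    rw [hS.norm a ha, norm_uni_apply hstar]
    exact mul_le_mul_of_nonneg_left b2 (norm_nonneg _)
  linarith [b1, h5]

/-- conjugation by the algebra -/
theorem goodU_left (hS : Std M ξ ρ) (hG : UG M U) {ε e : ℝ} (hε : 0 ≤ ε)
    (hCM : CMU M ρ U c ε) (hc1 : ∀ x ∈ M, c x 1 = 0) {S : H →L[ℂ] H} (he : 0 ≤ e)
    (h : Good M ξ ρ c e S) {u : H →L[ℂ] H} (hu : u ∈ U) :
    Good M ξ ρ c (2 * e + 2 * ε) (star u * S * u) := by
  intro x hx a ha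
  have huM := hG.mem u hu
  have hsuM : star u ∈ M := star_mem huM
  have hsu := hG.su u hu
  have hus := hG.us u hu
  have hun : ‖u‖ ≤ 1 := norm_uni_le hsu
  have hstar : star (star u) * star u = 1 := by rw [star_star, hus]
  have hsun : ‖star u‖ ≤ 1 := norm_uni_le hstar
  have hxu : x * star u ∈ M := mul_mem hx hsuM
  have hx' : u * (x * star u) ∈ M := mul_mem huM hxu
  have hua : u * a ∈ M := mul_mem huM ha
  have nxu : ‖x * star u‖ ≤ ‖x‖ := (norm_mul_le _ _).trans (by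
      calc ‖x‖ * ‖star u‖ ≤ ‖x‖ * 1 := mul_le_mul_of_nonneg_left hsun (norm_nonneg _)
        _ = ‖x‖ := mul_one _)
  have nx' : ‖u * (x * star u)‖ ≤ ‖x‖ := (norm_mul_le _ _).trans (by
      calc ‖u‖ * ‖x * star u‖ ≤ 1 * ‖x‖ := mul_le_mul hun nxu (norm_nonneg _) zero_le_one
        _ = ‖x‖ := one_mul _)
  have nua : ‖u * a‖ ≤ ‖a‖ := (norm_mul_le _ _).trans (by
      calc ‖u‖ * ‖a‖ ≤ 1 * ‖a‖ := mul_le_mul_of_nonneg_right hun (norm_nonneg _)
        _ = ‖a‖ := one_mul _)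
  have e7 : ∀ w, star u (u w) = w := fun w => congrArg (fun T : H →L[ℂ] H => T w) hsu
  have e9 : ∀ w, star u (ρ a w) = ρ a (star u w) := fun w =>
    congrArg (fun T : H →L[ℂ] H => T w) (hS.comm a ha _ hsuM).symm
  have key : dc ξ ρ (star u * S * u) x a =
      star u (dc ξ ρ S (u * (x * star u)) (u * a)) -
        ρ a (star u (dc ξ ρ S (u * (x * star u)) u)) := by
    have e6 : ∀ w, ρ (u * a) w = ρ a (ρ u w) := fun w => by rw [hS.mul u huM a ha]; rfl
    rw [dc_expand, dc_expand, dc_expand]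
    show star u (S (u (x (a ξ)))) - x (star u (S (u (a ξ)))) -
        ρ a (star u (S (u (x ξ)))) + ρ a (x (star u (S (u ξ)))) =
      star u (S (u (x (star u (u (a ξ))))) - u (x (star u (S (u (a ξ))))) -
        ρ (u * a) (S (u (x (star u ξ)))) + ρ (u * a) (u (x (star u (S ξ))))) -
      ρ a (star u (S (u (x (star u (u ξ)))) - u (x (star u (S (u ξ)))) -
        ρ u (S (u (x (star u ξ)))) + ρ u (u (x (star u (S ξ))))))
    simp only [map_sub, map_add, e6, e7, e9]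
    abel
  have b1 : ‖dc ξ ρ S (u * (x * star u)) (u * a) + u (c x a)‖ ≤ (e + ε) * ‖x‖ * ‖a‖ := by
    have h1 := h _ hx' _ hua
    have h2 := hCM.mid (star u) (hG.stm u hu) x hx (u * a) hua
    have h3 := hCM.left u hu _ hxu _ hua
    have h2' : star u * (u * a) = a := by rw [← mul_assoc, hsu, one_mul]
    rw [h2'] at h2
    have h4 : dc ξ ρ S (u * (x * star u)) (u * a) + u (c x a) =
        (c (u * (x * star u)) (u * a) + dc ξ ρ S (u * (x * star u)) (u * a)) -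
          u (c (x * star u) (u * a) - c x a) := by rw [h3, map_sub]; abel
    rw [h4]
    refine (norm_sub_le _ _).trans ?_
    rw [norm_uni_apply hsu]
    have h5 : e * ‖u * (x * star u)‖ * ‖u * a‖ ≤ e * ‖x‖ * ‖a‖ :=
      mul_le_mul (mul_le_mul_of_nonneg_left nx' he) nua (norm_nonneg _)
        (mul_nonneg he (norm_nonneg _))
    have h6 : ε * ‖x‖ * ‖u * a‖ ≤ ε * ‖x‖ * ‖a‖ :=
      mul_le_mul_of_nonneg_left nua (mul_nonneg hε (norm_nonneg _))
    linarith
  have b2 : ‖dc ξ ρ S (u * (x * star u)) u‖ ≤ (e + ε) * ‖x‖ := by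
    have h1 := h _ hx' _ huM
    have h2 := hCM.mid (star u) (hG.stm u hu) x hx u huM
    have h3 := hCM.left u hu _ hxu _ huM
    rw [hsu, hc1 x hx, sub_zero] at h2
    have h4 : dc ξ ρ S (u * (x * star u)) u =
        (c (u * (x * star u)) u + dc ξ ρ S (u * (x * star u)) u) -
          u (c (x * star u) u) := by rw [h3]; abel
    rw [h4]
    refine (norm_sub_le _ _).trans ?_
    rw [norm_uni_apply hsu]
    have h5 : e * ‖u * (x * star u)‖ * ‖u‖ ≤ e * ‖x‖ * 1 :=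
      mul_le_mul (mul_le_mul_of_nonneg_left nx' he) hun (norm_nonneg _)
        (mul_nonneg he (norm_nonneg _))
    have h6 : ε * ‖x‖ * ‖u‖ ≤ ε * ‖x‖ * 1 :=
      mul_le_mul_of_nonneg_left hun (mul_nonneg hε (norm_nonneg _))
    linarith
  have h4 : c x a + dc ξ ρ (star u * S * u) x a =
      star u (dc ξ ρ S (u * (x * star u)) (u * a) + u (c x a)) -
        ρ a (star u (dc ξ ρ S (u * (x * star u)) u)) := by
    rw [key, map_add, e7]; abel
  rw [h4]
  refine (norm_sub_le _ _).trans ?_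
  rw [norm_uni_apply hstar]
  have h5 : ‖ρ a (star u (dc ξ ρ S (u * (x * star u)) u))‖ ≤ ‖a‖ * ((e + ε) * ‖x‖) := by
    refine ((ρ a).le_opNorm _).trans ?_
    rw [hS.norm a ha, norm_uni_apply hstar]
    exact mul_le_mul_of_nonneg_left b2 (norm_nonneg _)
  linarith [b1, h5]

end basics

/-- the group structure of a group of unitaries -/
noncomputable def grp {H : Type} [NormedAddCommGroup H] [InnerProductSpace ℂ H] [CompleteSpace H]
    {M : VonNeumannAlgebra H} {U : Set (H →L[ℂ] H)} (hU : UG M U) :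
    Group {x : H →L[ℂ] H // x ∈ U} where
  mul a b := ⟨a.1 * b.1, hU.mul _ a.2 _ b.2⟩
  one := ⟨1, hU.one⟩
  inv a := ⟨star a.1, hU.stm _ a.2⟩
  mul_assoc a b d := Subtype.ext (mul_assoc _ _ _)
  one_mul a := Subtype.ext (one_mul _)
  mul_one a := Subtype.ext (mul_one _)
  inv_mul_cancel a := Subtype.ext (hU.su _ a.2)

/-- the properties that pass to the mean -/
theorem mean_props {H G : Type} [NormedAddCommGroup H] [InnerProductSpace ℂ H] [CompleteSpace H]
    [Group G] (ξ : H) (ρ : (H →L[ℂ] H) → (H →L[ℂ] H)) (f : G → (H →L[ℂ] H)) (A : ℝ)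
    (hf : ∀ g, ‖f g‖ ≤ A) :
    (∀ (y : H) (C : ℝ), (∀ g, ‖f g y‖ ≤ C) → ‖Pool.Agent.W663.KK.mean f y‖ ≤ C) ∧
    ∀ (x a : H →L[ℂ] H) (v : H) (C : ℝ), (∀ g, ‖v + dc ξ ρ (f g) x a‖ ≤ C) →
      ‖v + dc ξ ρ (Pool.Agent.W663.KK.mean f) x a‖ ≤ C := by
  have hSl : ∀ v y : H, Tendsto (fun i => ⟪v, Pool.Agent.W663.KK.TT f i y⟫_ℂ)
      (Pool.Agent.W663.KK.UU G) (𝓝 ⟪v, Pool.Agent.W663.KK.mean f y⟫_ℂ) :=
    fun v y => Pool.Agent.W663.KK.mean_tendsto ⟨A, hf⟩ v y
  set S := Pool.Agent.W663.KK.mean f with hS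
  constructor
  · intro y C hC
    refine wlim_norm (Pool.Agent.W663.KK.UU G) (fun i => Pool.Agent.W663.KK.TT f i y) (S y) C
      (fun v => hSl v y) fun i => ?_
    let L : (H →L[ℂ] H) →ₗ[ℂ] H :=
      { toFun := fun T => T y
        map_add' := fun S T => by rw [add_apply]
        map_smul' := fun c T => by simp }
    have h3 : Pool.Agent.W663.KK.avL i.1.toList i.2 (fun g => L (f g)) 1 =
        L (Pool.Agent.W663.KK.TT f i) := Pool.Agent.W663.KK.avL_map L _ _ f 1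
    have h4 : ‖L (Pool.Agent.W663.KK.TT f i)‖ ≤ C := by
      rw [← h3]
      exact Pool.Agent.W663.KK.avL_bound _ _ hC _
    exact h4
  · intro x a w C hC
    refine wlim_norm (Pool.Agent.W663.KK.UU G)
      (fun i => w + dc ξ ρ (Pool.Agent.W663.KK.TT f i) x a) _ _ (fun v => ?_) fun i => ?_
    · simp only [dc_expand, inner_add_right, inner_sub_right]
      have l1 := hSl v (x (a ξ))
      have l2 : Tendsto (fun n => ⟪v, x (Pool.Agent.W663.KK.TT f n (a ξ))⟫_ℂ)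
          (Pool.Agent.W663.KK.UU G) (𝓝 ⟪v, x (S (a ξ))⟫_ℂ) := by
        have := hSl (ContinuousLinearMap.adjoint x v) (a ξ)
        simpa only [ContinuousLinearMap.adjoint_inner_left] using this
      have l3 : Tendsto (fun n => ⟪v, ρ a (Pool.Agent.W663.KK.TT f n (x ξ))⟫_ℂ)
          (Pool.Agent.W663.KK.UU G) (𝓝 ⟪v, ρ a (S (x ξ))⟫_ℂ) := by
        have := hSl (ContinuousLinearMap.adjoint (ρ a) v) (x ξ)
        simpa only [ContinuousLinearMap.adjoint_inner_left] using this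
      have l4 : Tendsto (fun n => ⟪v, ρ a (x (Pool.Agent.W663.KK.TT f n ξ))⟫_ℂ)
          (Pool.Agent.W663.KK.UU G) (𝓝 ⟪v, ρ a (x (S ξ))⟫_ℂ) := by
        have := hSl (ContinuousLinearMap.adjoint x (ContinuousLinearMap.adjoint (ρ a) v)) ξ
        simpa only [ContinuousLinearMap.adjoint_inner_left] using this
      exact tendsto_const_nhds.add (((l1.sub l2).sub l3).add l4)
    · let L : (H →L[ℂ] H) →ₗ[ℂ] H :=
        { toFun := fun T => dc ξ ρ T x a
          map_add' := fun S T => by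
            simp only [dc_expand, add_apply, map_add]
            abel
          map_smul' := fun c T => by
            rw [dc_smul]; rfl }
      have h3 : Pool.Agent.W663.KK.avL i.1.toList i.2 (fun g => L (f g)) 1 =
          L (Pool.Agent.W663.KK.TT f i) := Pool.Agent.W663.KK.avL_map L _ _ f 1
      have h5 : w + L (Pool.Agent.W663.KK.TT f i) =
          Pool.Agent.W663.KK.avL i.1.toList i.2 (fun g => w + L (f g)) 1 := by
        rw [Pool.Agent.W663.KK.avL_add, Pool.Agent.W663.KK.avL_const, h3]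
      have h4 : ‖w + L (Pool.Agent.W663.KK.TT f i)‖ ≤ C := by
        rw [h5]
        exact Pool.Agent.W663.KK.avL_bound _ _ hC _
      exact h4

theorem uavg : S_UAVG := by
  refine ⟨10, by norm_num, ?_⟩
  intro H _ _ _ M ξ ρ U c S₀ A D ε hS hG hcomm hε hCM hc1 hA hD hgood
  have hξ : ‖ξ‖ = 1 := hS.unit
  have hone : ‖(1 : H →L[ℂ] H)‖ = 1 := by
    apply le_antisymm norm_one_le'
    have := (1 : H →L[ℂ] H).le_opNorm ξ
    rw [hξ, mul_one] at this
    exact (hξ ▸ this : _)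
  have hD0 : 0 ≤ D := by
    have := hD 1 (one_mem _)
    rw [hone, mul_one] at this
    exact (norm_nonneg _).trans this
  have hA0 : 0 ≤ A := (norm_nonneg _).trans hA
  let _ : Group {x : H →L[ℂ] H // x ∈ U} := grp hG
  let f : {x : H →L[ℂ] H // x ∈ U} × {x : H →L[ℂ] H // x ∈ U} → (H →L[ℂ] H) :=
    fun g => Suv ρ S₀ (g.1.1, g.2.1)
  have hgood1 : ∀ g, Good M ξ ρ c (10 * ε) (f g) := by
    intro g
    have h1 := goodU_right hS hG hε hCM hc1 hε (fun x hx a ha => hgood x hx a ha) g.2.2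
    have h2 := goodU_left hS hG hε hCM hc1 (by positivity) h1 g.1.2
    have h3 : 2 * (2 * ε + 2 * ε) + 2 * ε = 10 * ε := by ring
    rw [h3] at h2
    exact h2
  have hnorm1 : ∀ g, ‖f g‖ ≤ A := by
    intro g
    have hu := hG.mem _ g.1.2
    have hv := hG.mem _ g.2.2
    have r1 := rho_uni hS hv (hG.us _ g.2.2)
    have r2 := rho_uni' hS hv (hG.su _ g.2.2)
    refine ContinuousLinearMap.opNorm_le_bound _ hA0 fun w => ?_
    show ‖star g.1.1 (star (ρ g.2.1) (S₀ (ρ g.2.1 (g.1.1 w))))‖ ≤ A * ‖w‖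
    rw [norm_uni_apply (by rw [star_star]; exact hG.us _ g.1.2),
      norm_uni_apply (by rw [star_star]; exact r2)]
    refine (S₀.le_opNorm _).trans ?_
    rw [norm_uni_apply r1, norm_uni_apply (hG.su _ g.1.2)]
    exact mul_le_mul_of_nonneg_right hA (norm_nonneg _)
  have hvec1 : ∀ g, ∀ a ∈ M, ‖f g (a ξ)‖ ≤ D * ‖a‖ := by
    intro g a ha
    have hu := hG.mem _ g.1.2
    have hv := hG.mem _ g.2.2
    have r1 := rho_uni hS hv (hG.us _ g.2.2)
    have r2 := rho_uni' hS hv (hG.su _ g.2.2)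
    show ‖star g.1.1 (star (ρ g.2.1) (S₀ (ρ g.2.1 (g.1.1 (a ξ)))))‖ ≤ D * ‖a‖
    rw [norm_uni_apply (by rw [star_star]; exact hG.us _ g.1.2),
      norm_uni_apply (by rw [star_star]; exact r2)]
    have h1 : ρ g.2.1 (g.1.1 (a ξ)) = (g.1.1 * a * g.2.1) ξ := rho_apply hS hv (mul_mem hu ha)
    rw [h1]
    refine (hD _ (mul_mem (mul_mem hu ha) hv)).trans (mul_le_mul_of_nonneg_left ?_ hD0)
    have n1 : ‖g.1.1‖ ≤ 1 := norm_uni_le (hG.su _ g.1.2)
    have n2 : ‖g.2.1‖ ≤ 1 := norm_uni_le (hG.su _ g.2.2)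
    calc ‖g.1.1 * a * g.2.1‖ ≤ ‖g.1.1 * a‖ * ‖g.2.1‖ := norm_mul_le _ _
      _ ≤ (‖g.1.1‖ * ‖a‖) * ‖g.2.1‖ := mul_le_mul_of_nonneg_right (norm_mul_le _ _) (norm_nonneg _)
      _ ≤ (1 * ‖a‖) * 1 := mul_le_mul (mul_le_mul_of_nonneg_right n1 (norm_nonneg _)) n2
          (norm_nonneg _) (by positivity)
      _ = ‖a‖ := by ring
  have hGc : ∀ a b : {x : H →L[ℂ] H // x ∈ U} × {x : H →L[ℂ] H // x ∈ U}, a * b = b * a := by
    intro a b
    apply Prod.ext
    · exact Subtype.ext (hcomm _ a.1.2 _ b.1.2)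
    · exact Subtype.ext (hcomm _ a.2.2 _ b.2.2)
  have hBd : Pool.Agent.W663.KK.Bd f := ⟨A, hnorm1⟩
  have hw1 : ∀ w (hw : w ∈ U), star w * Pool.Agent.W663.KK.mean f * w =
      Pool.Agent.W663.KK.mean f := by
    intro w hw
    have h1 := Pool.Agent.W663.KK.mean_shift hGc hBd (⟨w, hw⟩, ⟨1, hG.one⟩)
    have h2 := Pool.Agent.W663.KK.mean_mul hBd (star w) w
    rw [← h2]
    conv_rhs => rw [← h1]
    congr 1
    funext g
    show star w * (star g.1.1 * (star (ρ g.2.1) * S₀ * ρ g.2.1) * g.1.1) * w =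
      star (w * g.1.1) * (star (ρ (1 * g.2.1)) * S₀ * ρ (1 * g.2.1)) * (w * g.1.1)
    rw [hcomm w hw g.1.1 g.1.2, star_mul, one_mul]
    noncomm_ring
  have hw2 : ∀ w (hw : w ∈ U), star (ρ w) * Pool.Agent.W663.KK.mean f * ρ w =
      Pool.Agent.W663.KK.mean f := by
    intro w hw
    have hwM := hG.mem w hw
    have h1 := Pool.Agent.W663.KK.mean_shift hGc hBd (⟨1, hG.one⟩, ⟨w, hw⟩)
    have h2 := Pool.Agent.W663.KK.mean_mul hBd (star (ρ w)) (ρ w)
    rw [← h2]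
    conv_rhs => rw [← h1]
    congr 1
    funext g
    have hu := hG.mem _ g.1.2
    have hv := hG.mem _ g.2.2
    show star (ρ w) * (star g.1.1 * (star (ρ g.2.1) * S₀ * ρ g.2.1) * g.1.1) * ρ w =
      star (1 * g.1.1) * (star (ρ (w * g.2.1)) * S₀ * ρ (w * g.2.1)) * (1 * g.1.1)
    have e1 : star (ρ w) * star g.1.1 = star g.1.1 * star (ρ w) := by
      rw [← hS.stm w hwM]; exact hS.comm _ (star_mem hwM) _ (star_mem hu)
    have e2 : g.1.1 * ρ w = ρ w * g.1.1 := (hS.comm w hwM _ hu).symm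
    rw [hS.mul w hwM _ hv, star_mul (ρ g.2.1) (ρ w), one_mul]
    calc star (ρ w) * (star g.1.1 * (star (ρ g.2.1) * S₀ * ρ g.2.1) * g.1.1) * ρ w
        = (star (ρ w) * star g.1.1) * (star (ρ g.2.1) * S₀ * ρ g.2.1) * (g.1.1 * ρ w) := by
          noncomm_ring
      _ = (star g.1.1 * star (ρ w)) * (star (ρ g.2.1) * S₀ * ρ g.2.1) * (ρ w * g.1.1) := by
          rw [e1, e2]
      _ = star g.1.1 * (star (ρ w) * star (ρ g.2.1) * S₀ * (ρ g.2.1 * ρ w)) * g.1.1 := by
          noncomm_ring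
  obtain ⟨p1, p2⟩ := mean_props ξ ρ f A hnorm1
  refine ⟨Pool.Agent.W663.KK.mean f, Pool.Agent.W663.KK.mean_norm hnorm1, ?_, ?_, ?_, ?_⟩
  · intro a ha
    exact p1 (a ξ) _ fun g => hvec1 g a ha
  · intro w hw
    calc Pool.Agent.W663.KK.mean f * w = (w * star w) * (Pool.Agent.W663.KK.mean f * w) := by
          rw [hG.us w hw, one_mul]
      _ = w * (star w * Pool.Agent.W663.KK.mean f * w) := by noncomm_ring
      _ = w * Pool.Agent.W663.KK.mean f := by rw [hw1 w hw]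
  · intro w hw
    have r2 := rho_uni' hS (hG.mem w hw) (hG.su w hw)
    calc Pool.Agent.W663.KK.mean f * ρ w =
          (ρ w * star (ρ w)) * (Pool.Agent.W663.KK.mean f * ρ w) := by rw [r2, one_mul]
      _ = ρ w * (star (ρ w) * Pool.Agent.W663.KK.mean f * ρ w) := by noncomm_ring
      _ = ρ w * Pool.Agent.W663.KK.mean f := by rw [hw2 w hw]
  · intro x hx a ha
    exact p2 x a (c x a) _ fun g => hgood1 g x hx a ha

end Pool.Agent.W690.KKS
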